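import Pool.Agent.PLX.StmtsB

/-!
Squad PLX (MP_1fc801_co), row MA2: rotation of the coordinates.
-/

set_option autoImplicit false

namespace Pool.Agent.PLX.H45

open Module

open Classical in
/-- ROW MA2 -/
theorem ma2 (h1 : Ma1Stmt) (h2 : RotStmt) : Ma2Stmt := by
  intro d K
  obtain ⟨ε, c, a, hε, hc, H⟩ := h1 d K
  refine ⟨ε, c, a, hε, hc, ?_⟩
  intro A _ _ E _ _ Φ f G P p₀ hD hfin hrk hP hPb hcnt hnd
  obtain ⟨ω, hω, hrot⟩ := h2 ((bl f G 4).image Φ)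
  have hω0 : ω ≠ 0 := by
    rintro rfl
    simp at hω
  have hinv : ∀ x, ω⁻¹ * (ω * x) = x := fun x => inv_mul_cancel_left₀ hω0 x
  have hinv' : ∀ x, ω * (ω⁻¹ * x) = x := fun x => mul_inv_cancel_left₀ hω0 x
  have hΦ' : ∀ x, ((AddMonoidHom.mulLeft ω).comp Φ) x = ω * Φ x := fun x => rfl
  have hinj : Function.Injective fun x : ℂ => ω * x := mul_right_injective₀ hω0
  have hcP : (P.map ⟨fun x => ω * x, hinj⟩).card = P.card := Finset.card_map _
  have hnd' : nd (P.map ⟨fun x => ω * x, hinj⟩) = nd P := by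
    unfold nd
    congr 1
    ext r
    simp only [Finset.mem_image, Finset.mem_product, Finset.mem_map, Function.Embedding.coeFn_mk,
      Prod.exists]
    have hdist : ∀ a b : ℂ, ‖ω * a - ω * b‖ = ‖a - b‖ := by
      intro a b
      rw [← mul_sub, norm_mul, hω, one_mul]
    constructor
    · rintro ⟨_, _, ⟨⟨a, ha, rfl⟩, ⟨b, hb, rfl⟩⟩, rfl⟩
      exact ⟨a, b, ⟨ha, hb⟩, (hdist a b).symm⟩
    · rintro ⟨a, b, ⟨ha, hb⟩, rfl⟩
      exact ⟨ω * a, ω * b, ⟨⟨a, ha, rfl⟩, ⟨b, hb, rfl⟩⟩, hdist a b⟩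
  have hR := H A E ((AddMonoidHom.mulLeft ω).comp Φ) f G
    (P.map ⟨fun x => ω * x, hinj⟩) (ω * p₀) hD hfin hrk ?_ ?_ ?_ ?_ ?_
  · obtain ⟨z, hz, p', hp', hle⟩ := hR
    obtain ⟨p, hp, rfl⟩ := Finset.mem_map.1 hp'
    refine ⟨ω⁻¹ * z, mul_ne_zero (inv_ne_zero hω0) hz, p, hp, ?_⟩
    rw [hcP, Finset.filter_map, Finset.card_map] at hle
    refine hle.trans_eq ?_
    congr 3
    refine Finset.filter_congr ?_
    intro q _
    simp only [Function.comp_apply, Function.Embedding.coeFn_mk]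
    rw [mem_lin, mem_lin]
    constructor
    · rintro ⟨r, hr⟩
      refine ⟨r, ?_⟩
      rw [← hinv (q - p), mul_sub, hr]
      ring
    · rintro ⟨r, hr⟩
      refine ⟨r, ?_⟩
      rw [← mul_sub, hr]
      calc ω * ((r : ℂ) * (ω⁻¹ * z)) = r * (ω * (ω⁻¹ * z)) := by ring
        _ = r * z := by rw [hinv']
  · intro x hx hx4 h0
    rw [hΦ'] at h0 ⊢
    by_contra hne
    refine hrot (Φ x) (Finset.mem_image_of_mem Φ ((mem_bl hD).2 ⟨hx, hx4⟩)) ?_ h0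
    intro h3
    exact hne (by rw [h3, mul_zero])
  · exact hP.map
  · intro p' hp'
    obtain ⟨p, hp, rfl⟩ := Finset.mem_map.1 hp'
    obtain ⟨x, hx, hx1, hxp⟩ := hPb p hp
    refine ⟨x, hx, hx1, ?_⟩
    rw [hΦ', hxp]
    exact mul_sub _ _ _
  · rw [hcP]
    exact hcnt
  · rw [hnd', hcP]
    exact hnd

end Pool.Agent.PLX.H45
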